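import Mathlib

open Set Polynomial Topology Filter

namespace Pool.Agent.Results.MP_21d915_nt.Counter

/-- `b^x = exp (x ln b)` with the principal value `ln b` -/
noncomputable def bpow (b x : ℂ) : ℂ := Complex.exp (x * Complex.log b)

/-- the levels `EL_n` of the tower with base `b` -/
def EL (b : ℂ) : ℕ → Set ℂ
  | 0 => Set.range ((↑) : ℚ → ℂ)
  | n + 1 => {z | IsAlgebraic (Subfield.closure (EL b n ∪ bpow b '' EL b n ∪
      {w | ∃ y ∈ EL b n, y ≠ 0 ∧ bpow b w = y})) z}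

/-- the exponential-logarithmic tower with base `b` -/
def tower (b : ℂ) : Set ℂ := ⋃ n, EL b n

lemma local_lip {m : ℕ} (G : (Fin m → ℂ) × ℂ → ℂ) (hG : ContDiff ℂ 1 G) (u : (Fin m → ℂ) × ℂ)
    (d : ℂ) (hd : HasDerivAt (fun y => G (u.1, y)) d u.2) (h0 : d ≠ 0) :
    ∃ U ∈ 𝓝 u, ∃ K : NNReal, ∀ v ∈ U, ∀ w ∈ U, G v = 0 → G w = 0 →
      dist v.2 w.2 ≤ K * dist v.1 w.1 := by
  have hs : HasStrictFDerivAt G (fderiv ℂ G u) u := hG.contDiffAt.hasStrictFDerivAt one_ne_zero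
  set A := fderiv ℂ G u with hA
  have h1 : A (0, 1) = d := by
    have h2 : HasDerivAt (fun y : ℂ => (u.1, y)) ((0 : Fin m → ℂ), (1 : ℂ)) u.2 :=
      (hasDerivAt_const _ _).prodMk (hasDerivAt_id _)
    have h3 := (hs.hasFDerivAt.comp_hasDerivAt u.2 h2)
    exact h3.unique hd
  have hdp : 0 < ‖d‖ := norm_pos_iff.2 h0
  have h4 := (Asymptotics.isLittleO_iff.1 hs.isLittleO) (half_pos hdp)
  rw [nhds_prod_eq] at h4
  obtain ⟨U, hU, W, hW, hUW⟩ := Filter.mem_prod_iff.1 h4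
  refine ⟨U ∩ W, inter_mem hU hW, ⟨2 * ‖A‖ / ‖d‖ + 1, by positivity⟩, ?_⟩
  intro v hv w hw gv gw
  have h5 := hUW (mk_mem_prod hv.1 hw.2)
  simp only [mem_ofPred_eq, gv, gw, sub_self, zero_sub, norm_neg] at h5
  have e : v - w = (v.1 - w.1, 0) + (v.2 - w.2) • ((0 : Fin m → ℂ), (1 : ℂ)) := by
    ext <;> simp
  have h6 : A (v - w) = A (v.1 - w.1, 0) + (v.2 - w.2) * d := by
    rw [e, map_add, map_smul, h1, smul_eq_mul]
  have h7 : ‖A (v.1 - w.1, 0)‖ ≤ ‖A‖ * ‖v.1 - w.1‖ := by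
    have := A.le_opNorm (v.1 - w.1, 0)
    simpa [Prod.norm_def] using this
  have h8 : ‖v - w‖ ≤ ‖v.1 - w.1‖ + ‖v.2 - w.2‖ := by
    rw [Prod.norm_def]
    simp
  have h9 : ‖v.2 - w.2‖ * ‖d‖ ≤ ‖A (v - w)‖ + ‖A (v.1 - w.1, 0)‖ := by
    rw [← norm_mul, show (v.2 - w.2) * d = A (v - w) - A (v.1 - w.1, 0) by rw [h6]; ring]
    exact norm_sub_le _ _
  rw [dist_eq_norm, dist_eq_norm]
  show ‖v.2 - w.2‖ ≤ (2 * ‖A‖ / ‖d‖ + 1) * ‖v.1 - w.1‖
  have : (2 * ‖A‖ / ‖d‖ + 1) * ‖v.1 - w.1‖ = (2 * ‖A‖ + ‖d‖) * ‖v.1 - w.1‖ / ‖d‖ := by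
    field_simp
  rw [this, le_div_iff₀ hdp]
  nlinarith

lemma graph_cover {m : ℕ} (G : (Fin m → ℂ) × ℂ → ℂ) (hG : ContDiff ℂ 1 G) :
    ∃ S : Set ((Fin m → ℂ) → ℂ), S.Countable ∧ (∀ g ∈ S, ∃ K, LipschitzWith K g) ∧
      ∀ p x d, G (p, x) = 0 → HasDerivAt (fun y => G (p, y)) d x → d ≠ 0 → ∃ g ∈ S, g p = x := by
  classical
  set Γ : Set ((Fin m → ℂ) × ℂ) :=
    {u | G u = 0 ∧ ∃ d, HasDerivAt (fun y => G (u.1, y)) d u.2 ∧ d ≠ 0} with hΓ
  have h1 : ∀ u : (Fin m → ℂ) × ℂ, ∃ U : Set ((Fin m → ℂ) × ℂ), ∃ g : (Fin m → ℂ) → ℂ,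
      (∃ K, LipschitzWith K g) ∧ (u ∈ Γ → U ∈ 𝓝 u) ∧ ∀ v ∈ U, G v = 0 → g v.1 = v.2 := by
    intro u
    by_cases hu : u ∈ Γ
    · obtain ⟨_, d, hd, h0⟩ := hu
      obtain ⟨U, hU, K, hK⟩ := local_lip G hG u d hd h0
      let s : Set (Fin m → ℂ) := {p | ∃ x, (p, x) ∈ U ∧ G (p, x) = 0}
      let f : (Fin m → ℂ) → ℂ := fun p => if h : p ∈ s then h.choose else 0
      have hf : ∀ p ∈ s, (p, f p) ∈ U ∧ G (p, f p) = 0 := by
        intro p hp
        simp only [f, dif_pos hp]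
        exact hp.choose_spec
      have hl : LipschitzOnWith K f s := by
        apply LipschitzOnWith.of_dist_le_mul
        intro p hp q hq
        exact hK _ (hf p hp).1 _ (hf q hq).1 (hf p hp).2 (hf q hq).2
      obtain ⟨g, hg, hgs⟩ := hl.extend_finite_dimension
      refine ⟨U, g, ⟨_, hg⟩, fun _ => hU, fun v hv gv => ?_⟩
      have hs : v.1 ∈ s := ⟨v.2, hv, gv⟩
      rw [← hgs hs]
      have := hK _ (hf _ hs).1 _ hv (hf _ hs).2 gv
      simpa using this
    · exact ⟨∅, fun _ => 0, ⟨_, LipschitzWith.const 0⟩, fun h => absurd h hu, by simp⟩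
  choose U g hg hU hv using h1
  obtain ⟨t, _, htc, ht⟩ := TopologicalSpace.countable_cover_nhdsWithin (s := Γ) (f := U)
    (fun u hu => mem_nhdsWithin_of_mem_nhds (hU u hu))
  refine ⟨g '' t, htc.image _, ?_, ?_⟩
  · rintro _ ⟨u, _, rfl⟩
    exact hg u
  · intro p x d h0 hd hd0
    have : (p, x) ∈ Γ := ⟨h0, d, hd, hd0⟩
    obtain ⟨u, hu, hx⟩ := mem_iUnion₂.1 (ht this)
    exact ⟨g u, mem_image_of_mem _ hu, hv u _ hx h0⟩

/-- the relations under which the tower is closed -/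
noncomputable def G (k m : ℕ) (u : (Fin (m + 2) → ℂ) × ℂ) : ℂ :=
  match k with
  | 0 => u.2 - (u.1 0 - u.1 1)
  | 1 => u.2 - u.1 0 * u.1 1
  | 2 => u.2 - Complex.exp (u.1 0)
  | 3 => Complex.exp u.2 - u.1 0
  | _ => ∑ i, u.1 i * u.2 ^ (i : ℕ)

lemma G_smooth (k m : ℕ) : ContDiff ℂ 1 (G k m) := by
  unfold G
  split <;> fun_prop

lemma exists_V : ∃ V : ℂ → Set ℂ, (∀ t, t ∈ V t) ∧
    (∀ t k m p x d, (∀ i, p i ∈ V t) → G k m (p, x) = 0 →
      HasDerivAt (fun y => G k m (p, y)) d x → d ≠ 0 → x ∈ V t) ∧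
    ∃ a b, ∀ t, ¬ (a ∈ V t ∧ b ∈ V t) := by
  choose S hSc hSl hS using fun km : ℕ × ℕ => graph_cover (G km.1 km.2) (G_smooth _ _)
  have : ∀ km, Countable (S km) := fun km => (hSc km).to_subtype
  let α := Option (Σ km : ℕ × ℕ, S km)
  let β : α → Type := fun a => Fin (a.elim 0 fun s => s.1.2 + 2)
  have : Encodable α := Encodable.ofCountable α
  have : ∀ a, Fintype (β a) := fun a => by unfold β; infer_instance
  have : ∀ a, Encodable (β a) := fun a => by unfold β; infer_instance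
  let ev : (Σ a : α, β a → (ℂ → ℂ)) → (ℂ → ℂ) := fun s =>
    match s with
    | ⟨none, _⟩ => id
    | ⟨some s, f⟩ => fun t => s.2.1 (fun i => f i t)
  let F : WType β → ℂ → ℂ := WType.elim _ ev
  have hF : ∀ w, ∃ K, LipschitzWith K (F w) := by
    intro w
    induction w with
    | mk a f ih =>
      cases a with
      | none => exact ⟨1, LipschitzWith.id⟩
      | some s =>
        choose K hK using ih
        obtain ⟨L, hL⟩ := hSl _ _ s.2.2
        have : LipschitzWith (Finset.univ.sup K) (fun t (i : Fin (s.1.2 + 2)) => F (f i) t) := by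
          apply LipschitzWith.of_dist_le_mul
          intro x y
          rw [dist_pi_le_iff (by positivity)]
          intro i
          refine ((hK i).dist_le_mul x y).trans ?_
          gcongr
          exact Finset.le_sup (f := K) (Finset.mem_univ _)
        exact ⟨_, hL.comp this⟩
  refine ⟨fun t => {x | ∃ w, F w t = x}, fun t => ⟨⟨none, Fin.elim0⟩, rfl⟩, ?_, ?_⟩
  · intro t k m p x d hp h0 hd hd0
    obtain ⟨g, hg, hx⟩ := hS (k, m) p x d h0 hd hd0
    choose w hw using hp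
    refine ⟨⟨some ⟨(k, m), g, hg⟩, w⟩, ?_⟩
    rw [← hx, ← funext hw]
    rfl
  · have hd : dimH (⋃ w : WType β × WType β, range fun t => (F w.1 t, F w.2 t)) <
        Module.finrank ℝ (ℂ × ℂ) := by
      rw [dimH_iUnion]
      refine lt_of_le_of_lt (b := 2) (iSup_le fun w => ?_) ?_
      · obtain ⟨K, hK⟩ := hF w.1
        obtain ⟨L, hL⟩ := hF w.2
        refine (hK.prodMk hL).dimH_range_le.trans ?_
        rw [Real.dimH_univ_eq_finrank]
        simp
      · simp only [Module.finrank_prod, Complex.finrank_real_complex]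
        norm_num
    obtain ⟨⟨a, b⟩, hab⟩ := (dense_compl_of_dimH_lt_finrank hd).nonempty
    refine ⟨a, b, ?_⟩
    rintro t ⟨⟨w1, h1⟩, w2, h2⟩
    exact hab (mem_iUnion.2 ⟨(w1, w2), t, by simp [h1, h2]⟩)

lemma self_mem (a : ℂ) (ha : a ≠ 0) : a ∈ tower a := by
  refine mem_iUnion.2 ⟨1, ?_⟩
  have : a ∈ Subfield.closure (EL a 0 ∪ bpow a '' EL a 0 ∪
      {w | ∃ y ∈ EL a 0, y ≠ 0 ∧ bpow a w = y}) := by
    apply Subfield.subset_closure
    left; right
    exact ⟨1, ⟨1, by simp⟩, by simp [bpow, Complex.exp_log ha]⟩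
  exact isAlgebraic_algebraMap (⟨a, this⟩ : Subfield.closure _)

theorem result : ¬ ∀ a b : ℂ, a ≠ 0 → a ≠ 1 → b ≠ 0 → b ≠ 1 →
    ∃ c : ℂ, c ≠ 0 ∧ c ≠ 1 ∧ tower a ⊆ tower c ∧ tower b ⊆ tower c := by
  intro H
  obtain ⟨V, hV, hc, a, b, hab⟩ := exists_V
  have hsub : ∀ t x y, x ∈ V t → y ∈ V t → x - y ∈ V t := by
    intro t x y hx hy
    refine hc t 0 0 ![x, y] _ 1 (by simp [Fin.forall_fin_two, hx, hy]) (by simp [G]) ?_ one_ne_zero
    exact (hasDerivAt_id' (x - y)).sub_const (x - y)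
  have hmul : ∀ t x y, x ∈ V t → y ∈ V t → x * y ∈ V t := by
    intro t x y hx hy
    refine hc t 1 0 ![x, y] _ 1 (by simp [Fin.forall_fin_two, hx, hy]) (by simp [G]) ?_ one_ne_zero
    exact (hasDerivAt_id' (x * y)).sub_const (x * y)
  have hexp : ∀ t x, x ∈ V t → Complex.exp x ∈ V t := by
    intro t x hx
    refine hc t 2 0 ![x, x] _ 1 (by simp [Fin.forall_fin_two, hx]) (by simp [G]) ?_ one_ne_zero
    exact (hasDerivAt_id' (Complex.exp x)).sub_const (Complex.exp x)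
  have hlog : ∀ t x, Complex.exp x ∈ V t → x ∈ V t := by
    intro t x hx
    refine hc t 3 0 ![Complex.exp x, Complex.exp x] _ _ (by simp [Fin.forall_fin_two, hx])
      (by simp [G]) ?_ (Complex.exp_ne_zero x)
    exact (Complex.hasDerivAt_exp _).sub_const _
  have hpoly : ∀ t (P : ℂ[X]) x, (∀ i, P.coeff i ∈ V t) → P.eval x = 0 →
      P.derivative.eval x ≠ 0 → x ∈ V t := by
    intro t P x hP h0 h1
    have e : ∀ y, G 4 P.natDegree (fun i => P.coeff i, y) = P.eval y := by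
      intro y
      rw [eval_eq_sum_range' (n := P.natDegree + 2) (by omega), Finset.sum_range]
      rfl
    refine hc t 4 P.natDegree (fun i => P.coeff i) x _ (fun i => hP i) (by rw [e, h0]) ?_ h1
    simp only [e]
    exact P.hasDerivAt x
  have h0 : ∀ t, (0 : ℂ) ∈ V t := fun t => by simpa using hsub t t t (hV t) (hV t)
  have h1 : ∀ t, (1 : ℂ) ∈ V t := fun t => by simpa using hexp t 0 (h0 t)
  have hneg : ∀ t x, x ∈ V t → -x ∈ V t := fun t x hx => by simpa using hsub t 0 x (h0 t) hx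
  let W : ℂ → Subfield ℂ := fun t =>
    { carrier := V t
      mul_mem' := hmul t _ _
      one_mem' := h1 t
      add_mem' := fun {x y} hx hy => by simpa using hsub t x (-y) hx (hneg t y hy)
      zero_mem' := h0 t
      neg_mem' := hneg t _
      inv_mem' := fun x hx => by
        by_cases hx0 : x = 0
        · simpa [hx0] using h0 t
        · refine hpoly t (C x * X + C (-1)) _ ?_ (by simp [hx0]) (by simpa using hx0)
          intro i
          rcases i with _ | _ | i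
          · simpa using hneg t 1 (h1 t)
          · simpa [coeff_one] using hx
          · simpa [coeff_one, coeff_X] using h0 t }
  have halg : ∀ t z, IsAlgebraic (W t) z → z ∈ V t := by
    intro t z hz
    have hi := hz.isIntegral
    refine hpoly t ((minpoly (W t) z).map (algebraMap (W t) ℂ)) z ?_ ?_ ?_
    · intro i
      rw [coeff_map]
      exact ((minpoly (W t) z).coeff i).2
    · rw [eval_map_algebraMap]
      exact minpoly.aeval _ _
    · rw [derivative_map, eval_map_algebraMap]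
      exact (minpoly.irreducible hi).separable.aeval_derivative_ne_zero (minpoly.aeval _ _)
  have key : ∀ c : ℂ, c ≠ 0 → c ≠ 1 → tower c ⊆ V (Complex.log c) := by
    intro c hc0 hc1
    have hl : Complex.log c ≠ 0 := by
      intro h
      apply hc1
      rw [← Complex.exp_log hc0, h, Complex.exp_zero]
    refine iUnion_subset fun n => ?_
    induction n with
    | zero =>
      rintro _ ⟨q, rfl⟩
      exact SubfieldClass.ratCast_mem (W (Complex.log c)) q
    | succ n ih =>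
      intro z hz
      apply halg
      have hle : Subfield.closure (EL c n ∪ bpow c '' EL c n ∪
          {w | ∃ y ∈ EL c n, y ≠ 0 ∧ bpow c w = y}) ≤ W (Complex.log c) := by
        rw [Subfield.closure_le]
        rintro w ((hw | ⟨x, hx, rfl⟩) | ⟨y, hy, _, hw⟩)
        · exact ih hw
        · exact hexp _ _ (hmul _ _ _ (ih hx) (hV _))
        · have h2 : w * Complex.log c ∈ W (Complex.log c) := hlog _ _ (by
            have := ih hy
            rwa [← hw] at this)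
          have h3 := (W (Complex.log c)).div_mem h2 (hV _)
          rwa [mul_div_cancel_right₀ _ hl] at h3
      obtain ⟨P, hP0, hP⟩ := hz
      refine ⟨P.map (Subfield.inclusion hle), ?_, ?_⟩
      · exact (Polynomial.map_ne_zero_iff (Subfield.inclusion hle).injective).2 hP0
      · rw [aeval_def, eval₂_map]
        exact hP
  have ha0 : a ≠ 0 := fun h => hab b ⟨h ▸ h0 b, hV b⟩
  have ha1 : a ≠ 1 := fun h => hab b ⟨h ▸ h1 b, hV b⟩
  have hb0 : b ≠ 0 := fun h => hab a ⟨hV a, h ▸ h0 a⟩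
  have hb1 : b ≠ 1 := fun h => hab a ⟨hV a, h ▸ h1 a⟩
  obtain ⟨c, hc0, hc1, hac, hbc⟩ := H a b ha0 ha1 hb0 hb1
  exact hab _ ⟨key c hc0 hc1 (hac (self_mem a ha0)), key c hc0 hc1 (hbc (self_mem b hb0))⟩

end Pool.Agent.Results.MP_21d915_nt.Counter
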